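import Pool.Agent.X196.PH.Main

/-!
# The free group of rank two has property (PH') from two focal actions

`F = ⟨a, t⟩` is the semidirect product of the free group `K` on the elements `t ^ n a t ^ (-n)` and
`ℤ`. Give these letters the weights `2 ^ n` (or `2 ^ (-n)`): conjugation by `t` multiplies the
weighted word length of `K` by `2` (or `1 / 2`), so that `F` acts on the hyperbolic cone over `K`
with this metric, with a fixed point in the boundary. An element that is short for both weights has
few letters, and all of them have small indices; hence the diagonal action on the product of the two
cones is proper. The spaces of the theorem are the tight spans of the cones; they are geodesic.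
-/

set_option autoImplicit false

namespace Pool.Agent.Results.MP_d5cca6_al.FreeGroupTwoFocalActions

open Pool.Agent.X196.PH

/-- The free group of rank two has property (PH') from two focal actions, and it is not
amenable. -/
theorem result : FocalPH (FreeGroup (Fin 2)) 2 ∧ ¬ Amenable (FreeGroup (Fin 2)) :=
  ⟨focalPH_F2, not_amenable_F2⟩

end Pool.Agent.Results.MP_d5cca6_al.FreeGroupTwoFocalActions
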